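import Mathlib

set_option autoImplicit false

namespace Pool.Agent.Results.MP_6ec7bd_co.Counter

/-- Number of occurrences of `v` as a factor of `w`. -/
def occ (v w : List (Fin 2)) : ℕ := (w.tails.filter fun s => v.isPrefixOf s).length

def val (w : List (Fin 2)) : ℕ := w.foldl (fun a b => 2 * a + b) 0

def bin (n : ℕ) : List (Fin 2) := ((Nat.digits 2 n).map fun b => Fin.ofNat 2 b).reverse

def lead (v : List (Fin 2)) : ℕ := (v.takeWhile (· = 0)).length
def trail (v : List (Fin 2)) : ℕ := lead v.reverse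

def e (v : List (Fin 2)) (n : ℕ) : ℕ := occ v (List.replicate (lead v) 0 ++ bin n)

def Pair (v x y : List (Fin 2)) : Prop :=
  x.length + 1 = v.length ∧ y.length + 1 = v.length ∧
    (occ v (List.replicate (lead v) 0 ++ x) + occ v (y ++ x) +
      occ v (y ++ List.replicate (trail v) 0)) % 2 = 1

def MinPair (v x y : List (Fin 2)) : Prop :=
  Pair v x y ∧ ∀ x' y', Pair v x' y' → x < x' ∨ (x = x' ∧ y ≤ y')

def C (v x : List (Fin 2)) : ℚ := (val x : ℚ) / 2 ^ (v.length - 1 + trail v)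
def B (v x y : List (Fin 2)) : ℚ := val y - 2 ^ trail v * C v x

lemma len4 (x : List (Fin 2)) (h : x.length + 1 = 5) : ∃ a b c d, x = [a, b, c, d] := by
  match x, h with
  | [a, b, c, d], _ => exact ⟨a, b, c, d, rfl⟩

theorem result : ∃ (v x y : List (Fin 2)) (d A : ℕ), 2 ≤ v.length ∧ 1 ∈ v ∧ v ≠ [1, 1] ∧
    MinPair v x y ∧ 2 ^ (2 * v.length + 1) ≤ d ∧ IsLeast {l | 1 ≤ l ∧ Odd (e v (l * d))} A ∧
    C v x * d + B v x y < A := by
  refine ⟨[1, 0, 0, 0, 0], [0, 0, 0, 1], [0, 0, 0, 1], 2115, 11, by decide, by decide, by decide,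
    ⟨by unfold Pair; decide, ?_⟩, by decide, ⟨⟨by decide, by decide +kernel⟩, ?_⟩, ?_⟩
  · rintro x y ⟨h1, h2, h3⟩
    obtain ⟨a, b, c, d, rfl⟩ := len4 x h1
    obtain ⟨a', b', c', d', rfl⟩ := len4 y h2
    revert h3
    clear h1 h2
    revert a b c d a' b' c' d'
    decide +kernel
  · rintro l ⟨h1, h2⟩
    by_contra h
    have key : ∀ l < 11, 1 ≤ l → ¬ Odd (e [1, 0, 0, 0, 0] (l * 2115)) := by decide +kernel
    exact key l (by omega) h1 h2
  · have h1 : trail [1, 0, 0, 0, 0] = 4 := by decide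
    have h2 : val [0, 0, 0, 1] = 1 := by decide
    simp only [C, B, h1, h2, List.length]
    norm_num

end Pool.Agent.Results.MP_6ec7bd_co.Counter
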